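import Mathlib
import Pool.Agent.Helper31.GZ.Brouwer

/-!
# A degree argument for cubes

The map `gg` from the cube `[-1,1]^m` to `ℝ^(m+1)` minus the origin sends the boundary of the cube
to one point, and covers the directions once. It is not null-homotopic relative to the boundary.
-/

set_option autoImplicit false

open Set Topology
open scoped unitInterval

namespace Pool.Agent.V11212.Deg

variable {m : ℕ}

/-- the coordinates `w` of a point of the cube: last coordinate makes the sum vanish -/
noncomputable def ww (y : Fin m → ℝ) : Fin (m + 1) → ℝ :=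
  Fin.snoc (α := fun _ => ℝ) y (-∑ i, y i)

@[simp] lemma ww_castSucc (y : Fin m → ℝ) (i : Fin m) : ww y i.castSucc = y i := by
  simp [ww]

@[simp] lemma ww_last (y : Fin m → ℝ) : ww y (Fin.last m) = -∑ i, y i := by
  simp [ww]

lemma sum_ww (y : Fin m → ℝ) : ∑ j, ww y j = 0 := by
  rw [Fin.sum_univ_castSucc]
  simp

lemma continuous_ww : Continuous (ww (m := m)) := by
  refine continuous_pi fun j => ?_
  refine Fin.lastCases ?_ (fun i => ?_) j
  · simp only [ww_last]
    exact (continuous_finsetSum _ fun i _ => continuous_apply i).neg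
  · simp only [ww_castSucc]
    exact continuous_apply i

/-- the direction map -/
noncomputable def gg (y : Fin m → ℝ) (j : Fin (m + 1)) : ℝ :=
  (1 - 2 * ‖y‖) + (1 - ‖y‖) * ww y j

lemma continuous_gg : Continuous (gg (m := m)) := by
  refine continuous_pi fun j => ?_
  unfold gg
  exact (continuous_const.sub (continuous_const.mul continuous_norm)).add
    ((continuous_const.sub continuous_norm).mul ((continuous_apply j).comp continuous_ww))

lemma sum_gg (y : Fin m → ℝ) : ∑ j, gg y j = (m + 1) * (1 - 2 * ‖y‖) := by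
  unfold gg
  rw [Finset.sum_add_distrib, ← Finset.mul_sum, sum_ww]
  simp
  ring

lemma gg_ne (y : Fin m → ℝ) : gg y ≠ 0 := by
  intro hcon
  have hs := sum_gg y
  rw [Finset.sum_eq_zero fun j _ => congrFun hcon j] at hs
  have hm : ((m : ℝ) + 1) ≠ 0 := by positivity
  have h2 : 1 - 2 * ‖y‖ = 0 := by
    rcases mul_eq_zero.1 hs.symm with h | h
    · exact absurd h hm
    · exact h
  have h3 : ‖y‖ = 1 / 2 := by linarith
  have h4 : y = 0 := by
    funext i
    have := congrFun hcon i.castSucc
    unfold gg at this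
    rw [h2, h3, ww_castSucc] at this
    simp only [Pi.zero_apply] at this ⊢
    linarith
  rw [h4, norm_zero] at h3
  norm_num at h3

lemma gg_of_norm {y : Fin m → ℝ} (hy : ‖y‖ = 1) : gg y = fun _ => -1 := by
  funext j
  unfold gg
  rw [hy]
  ring

/-- mean value -/
noncomputable def mean (g : Fin (m + 1) → ℝ) : ℝ := (∑ j, g j) / (m + 1)

lemma continuous_mean : Continuous (mean (m := m)) := by
  unfold mean
  exact (continuous_finsetSum _ fun j _ => continuous_apply j).div_const _

/-- the linear coordinates -/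
noncomputable def TT (g : Fin (m + 1) → ℝ) : (Fin m → ℝ) × ℝ :=
  (fun i => g i.castSucc - mean g, - mean g)

lemma continuous_TT : Continuous (TT (m := m)) := by
  unfold TT
  refine Continuous.prodMk ?_ continuous_mean.neg
  exact continuous_pi fun i => (continuous_apply _).sub continuous_mean

lemma TT_eq_zero {g : Fin (m + 1) → ℝ} (h : TT g = 0) : g = 0 := by
  have h1 : mean g = 0 := by
    have := congrArg Prod.snd h
    simpa [TT] using this
  have h2 : ∀ i : Fin m, g i.castSucc = 0 := fun i => by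
    have := congrFun (congrArg Prod.fst h) i
    simp only [TT, h1] at this
    simpa using this
  have h3 : ∑ j, g j = 0 := by
    unfold mean at h1
    rcases div_eq_zero_iff.1 h1 with h | h
    · exact h
    · exact absurd h (by positivity)
  rw [Fin.sum_univ_castSucc, Finset.sum_eq_zero fun i _ => h2 i, zero_add] at h3
  funext j
  exact Fin.lastCases h3 h2 j

/-- there is no null-homotopy of `gg` relative to the boundary -/
theorem no_null (G : (Fin m → ℝ) × ℝ → Fin (m + 1) → ℝ) (hG : Continuous G)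
    (h0 : ∀ u, G u ≠ 0)
    (hb : ∀ u : (Fin m → ℝ) × ℝ, ‖u.1‖ ≤ 1 → |u.2| ≤ 1 → (‖u.1‖ = 1 ∨ u.2 = 1) →
      G u = fun _ => -1)
    (h1 : ∀ u : (Fin m → ℝ) × ℝ, ‖u.1‖ ≤ 1 → u.2 = -1 → ∃ c : ℝ, 0 < c ∧ G u = c • gg u.1) :
    False := by
  have hG0 : ∀ u, TT (G u) ≠ 0 := fun u h => h0 u (TT_eq_zero h)
  have hGn : ∀ u, 0 < ‖TT (G u)‖ := fun u => norm_pos_iff.2 (hG0 u)
  obtain ⟨u, hu⟩ := Pool.Agent.Helper31.GZ.Brouwer.brouwer
    (fun u => -((‖TT (G u)‖)⁻¹ • TT (G u)))
    (((continuous_TT.comp hG).norm.inv₀ fun u => (hGn u).ne').smul (continuous_TT.comp hG)).neg 1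
    (fun u => by
      rw [norm_neg, norm_smul, norm_inv, norm_norm, inv_mul_cancel₀ (hGn u).ne'])
  obtain ⟨M, hM⟩ : ∃ M : ℝ, M = ‖TT (G u)‖ := ⟨_, rfl⟩
  have hM0 : 0 < M := by rw [hM]; exact hGn u
  have hu1 : ‖u‖ = 1 := by
    rw [← hu, norm_neg, norm_smul, norm_inv, norm_norm, inv_mul_cancel₀ (hGn u).ne']
  have hTu : TT (G u) = -(M • u) := by
    have h1 : M • u = -(TT (G u)) := by
      conv_lhs => rw [← hu]
      rw [← hM, smul_neg, smul_smul, mul_inv_cancel₀ hM0.ne', one_smul]
    rw [h1, neg_neg]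
  have hT2 : mean (G u) = M * u.2 := by
    have := congrArg Prod.snd hTu
    simp only [TT, Prod.snd_neg, Prod.smul_snd, smul_eq_mul] at this
    linarith
  have hT1 : ∀ i : Fin m, G u i.castSucc = mean (G u) - M * u.1 i := fun i => by
    have := congrFun (congrArg Prod.fst hTu) i
    simp only [TT, Prod.fst_neg, Prod.smul_fst, Pi.neg_apply, Pi.smul_apply, smul_eq_mul] at this
    linarith
  have hn1 : ‖u.1‖ ≤ 1 := (norm_fst_le u).trans hu1.le
  have hn2 : |u.2| ≤ 1 := by
    rw [← Real.norm_eq_abs]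
    exact (norm_snd_le u).trans hu1.le
  by_cases hcase : ‖u.1‖ = 1 ∨ u.2 = 1
  · have h2 := hb u hn1 hn2 hcase
    have h3 : mean (G u) = -1 := by
      rw [h2]
      unfold mean
      simp only [Finset.sum_const, Finset.card_univ, Fintype.card_fin, nsmul_eq_mul]
      push_cast
      field_simp
    rcases hcase with h4 | h4
    · have h5 : u.1 = 0 := by
        funext i
        have h6 := hT1 i
        rw [h3, h2] at h6
        have h7 : M * u.1 i = 0 := by linarith
        rcases mul_eq_zero.1 h7 with h8 | h8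
        · exact absurd h8 hM0.ne'
        · exact h8
      rw [h5, norm_zero] at h4
      exact zero_ne_one h4
    · rw [h3, h4] at hT2
      linarith
  · push Not at hcase
    have h2 : u.2 = -1 := by
      have h3 : |u.2| = 1 := by
        rw [Prod.norm_def] at hu1
        rcases max_choice ‖u.1‖ ‖u.2‖ with h | h
        · rw [h] at hu1
          exact absurd hu1 hcase.1
        · rw [h, Real.norm_eq_abs] at hu1
          exact hu1
      rcases (abs_eq zero_le_one).1 h3 with h4 | h4
      · exact absurd h4 hcase.2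
      · exact h4
    obtain ⟨c, hc, hGu⟩ := h1 u hn1 h2
    have h3 : mean (G u) = c * (1 - 2 * ‖u.1‖) := by
      rw [hGu]
      unfold mean
      simp only [Pi.smul_apply, smul_eq_mul, ← Finset.mul_sum, sum_gg]
      have hm : ((m : ℝ) + 1) ≠ 0 := by positivity
      field_simp
    have h4 : ‖u.1‖ > 1 / 2 := by
      rw [h3, h2] at hT2
      by_contra h5
      have h6 : 0 ≤ 1 - 2 * ‖u.1‖ := by linarith [not_lt.1 h5]
      have := mul_nonneg hc.le h6
      linarith
    have h5 : u.1 = 0 := by
      funext i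
      have h6 := hT1 i
      rw [h3, hGu] at h6
      simp only [Pi.smul_apply, smul_eq_mul, gg, ww_castSucc] at h6
      have h7 : (c * (1 - ‖u.1‖) + M) * u.1 i = 0 := by linarith
      have h8 : 0 < c * (1 - ‖u.1‖) + M := by
        have : 0 ≤ c * (1 - ‖u.1‖) := mul_nonneg hc.le (by linarith)
        linarith
      rcases mul_eq_zero.1 h7 with h9 | h9
      · exact absurd h9 h8.ne'
      · exact h9
    rw [h5, norm_zero] at h4
    linarith

/-- rescaling of the unit cube -/
def yy (y : Fin m → I) : Fin m → ℝ := fun i => 2 * (y i : ℝ) - 1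

lemma continuous_yy : Continuous (yy (m := m)) := by
  unfold yy
  fun_prop

lemma norm_yy_le (y : Fin m → I) : ‖yy y‖ ≤ 1 := by
  refine (pi_norm_le_iff_of_nonneg zero_le_one).2 fun j => ?_
  rw [Real.norm_eq_abs, abs_le]
  have h0 := (y j).2.1
  have h1 := (y j).2.2
  unfold yy
  constructor <;> linarith

lemma norm_yy_of_boundary {y : Fin m → I} (hy : y ∈ Cube.boundary (Fin m)) :
    ‖yy y‖ = 1 := by
  obtain ⟨i, hi⟩ := hy
  refine le_antisymm (norm_yy_le y) ?_
  have h := norm_le_pi_norm (yy y) i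
  have h2 : ‖yy y i‖ = 1 := by
    unfold yy
    rcases hi with hi | hi
    · rw [hi]; norm_num
    · rw [hi]; norm_num
  linarith

/-- clamp to the unit interval -/
noncomputable def tcl (s : ℝ) : I := Set.projIcc 0 1 zero_le_one ((1 + s) / 2)

lemma continuous_tcl : Continuous tcl := by
  unfold tcl
  exact continuous_projIcc.comp (by fun_prop)

lemma tcl_val {s : ℝ} (h0 : -1 ≤ s) (h1 : s ≤ 1) : ((tcl s : I) : ℝ) = (1 + s) / 2 := by
  unfold tcl
  rw [Set.projIcc_of_mem zero_le_one ⟨by linarith, by linarith⟩]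

lemma tcl_neg_one : tcl (-1) = 0 := by
  apply Subtype.ext
  rw [tcl_val (by norm_num) (by norm_num)]
  norm_num

lemma tcl_one : tcl 1 = 1 := by
  apply Subtype.ext
  rw [tcl_val (by norm_num) (by norm_num)]
  norm_num

lemma yy_tcl {y : Fin m → ℝ} (hy : ‖y‖ ≤ 1) : yy (fun i => tcl (y i)) = y := by
  funext i
  have h := (norm_le_pi_norm y i).trans hy
  rw [Real.norm_eq_abs, abs_le] at h
  unfold yy
  rw [tcl_val h.1 h.2]
  ring

lemma tcl_boundary {y : Fin m → ℝ} (hy : ‖y‖ = 1) :
    (fun i => tcl (y i)) ∈ Cube.boundary (Fin m) := by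
  have hex : ∃ i, |y i| = 1 := by
    by_contra hcon
    push Not at hcon
    have hlt : ‖y‖ < 1 := by
      refine (pi_norm_lt_iff zero_lt_one).2 fun i => ?_
      have h := (norm_le_pi_norm y i).trans hy.le
      rw [Real.norm_eq_abs] at h ⊢
      exact lt_of_le_of_ne h (hcon i)
    exact absurd hy hlt.ne
  obtain ⟨i, hi⟩ := hex
  refine ⟨i, ?_⟩
  rcases (abs_eq zero_le_one).1 hi with h1 | h1
  · right
    change tcl (y i) = 1
    rw [h1, tcl_one]
  · left
    change tcl (y i) = 0
    rw [h1, tcl_neg_one]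

/-- The same statement on the cube. -/
theorem no_null_cube (F : I × (Fin m → I) → Fin (m + 1) → ℝ) (hF : Continuous F)
    (h0 : ∀ u, F u ≠ 0)
    (hb : ∀ t y, y ∈ Cube.boundary (Fin m) → F (t, y) = fun _ => -1)
    (ht : ∀ y, F (1, y) = fun _ => -1)
    (h1 : ∀ y, ∃ c : ℝ, 0 < c ∧ F (0, y) = c • gg (yy y)) : False := by
  refine no_null (fun u : (Fin m → ℝ) × ℝ => F (tcl u.2, fun i => tcl (u.1 i))) ?_ (fun u => h0 _)
    ?_ ?_
  · refine hF.comp (Continuous.prodMk (continuous_tcl.comp continuous_snd)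
      (continuous_pi fun i => ?_))
    exact continuous_tcl.comp ((continuous_apply i).comp continuous_fst)
  · intro u h2 h3 h4
    rcases h4 with h4 | h4
    · exact hb _ _ (tcl_boundary h4)
    · rw [h4, tcl_one]
      exact ht _
  · intro u h2 h3
    obtain ⟨c, hc, hcu⟩ := h1 (fun i => tcl (u.1 i))
    refine ⟨c, hc, ?_⟩
    rw [h3, tcl_neg_one, hcu, yy_tcl h2]

end Pool.Agent.V11212.Deg
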